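import Pool.Agent.V11112.GB3

/-! The image of `x ↦ dim_H AS(x)` for the Gauss map is exactly the interval `[0, 1/2]`. -/

open Filter Topology
open scoped ENNReal

namespace Pool.Agent.Results.MP_bb898f_an.GaussAsymptoticImage

/-- The Gauss map: `gauss x` is the fractional part of `1 / x` (and `gauss 0 = 0`, since
`1 / 0 = 0` here). -/
noncomputable def gauss (x : ℝ) : ℝ := Int.fract (1 / x)

/-- The asymptotic set of `x`. -/
def AS (x : ℝ) : Set ℝ :=
  {y | y ∈ Set.Ico (0 : ℝ) 1 ∧ Tendsto (fun n => |gauss^[n] x - gauss^[n] y|) atTop (𝓝 0)}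

theorem result : {d : ℝ≥0∞ | ∃ x ∈ Set.Ico (0 : ℝ) 1, dimH (AS x) = d} = Set.Icc 0 (1 / 2) := by
  have h1 : ∀ x, AS x = V11112.GA.AS x := by
    intro x
    ext y
    constructor
    · rintro ⟨⟨h0, h1⟩, h2⟩
      exact ⟨h0, h1, h2⟩
    · rintro ⟨h0, h1, h2⟩
      exact ⟨⟨h0, h1⟩, h2⟩
  rw [← V11112.GB.image_eq]
  ext d
  simp only [h1, Set.mem_Ico]

end Pool.Agent.Results.MP_bb898f_an.GaussAsymptoticImage
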